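import Mathlib

/-! Block TR: estimates for a boost with a source term, and a convexity lemma. -/

namespace Pool.Agent.MP_3ee8cb_gt.DNTR

open Set
open scoped RealInnerProductSpace

theorem le_of_der {f f' : ℝ → ℝ} {c t : ℝ} (hd : ∀ s, HasDerivAt f (f' s) s)
    (hl : ∀ s ∈ Icc (0 : ℝ) 1, f' s ≤ c) (ht : t ∈ Icc (0 : ℝ) 1) : f t ≤ f 0 + c * t := by
  have hg : ∀ u, HasDerivAt (fun v => f v - c * v) (f' u - c) u := fun u => by
    have h1 : HasDerivAt (fun v : ℝ => c * v) c u := by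
      simpa using (hasDerivAt_id u).const_mul c
    exact (hd u).sub h1
  have hm : AntitoneOn (fun v => f v - c * v) (Icc 0 1) := by
    refine antitoneOn_of_deriv_nonpos (convex_Icc 0 1) ?_ ?_ ?_
    · exact fun u _ => (hg u).continuousAt.continuousWithinAt
    · exact fun u _ => (hg u).differentiableAt.differentiableWithinAt
    · intro u hu
      rw [(hg u).deriv]
      linarith [hl u (interior_subset hu)]
  have := hm (left_mem_Icc.mpr zero_le_one) ht ht.1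
  simp only at this
  linarith

/-- A function with monotone derivative that vanishes at `1` is at most its value at `0`. -/
theorem cvx_le {f g g' : ℝ → ℝ} (hf : ∀ s, HasDerivAt f (g s) s) (hg : ∀ s, HasDerivAt g (g' s) s)
    (h0 : ∀ s, 0 ≤ g' s) (hn : 0 ≤ f 0) (h1 : f 1 = 0) {t : ℝ} (ht : t ∈ Icc (0 : ℝ) 1) :
    f t ≤ f 0 := by
  have hm : Monotone g := monotone_of_deriv_nonneg (fun s => (hg s).differentiableAt)
    fun s => by rw [(hg s).deriv]; exact h0 s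
  have hd : deriv f = g := funext fun s => (hf s).deriv
  have hc : ConvexOn ℝ univ f :=
    Monotone.convexOn_univ_of_deriv (fun s => (hf s).differentiableAt) (hd ▸ hm)
  have := hc.2 (mem_univ 0) (mem_univ 1) (sub_nonneg.mpr ht.2) ht.1 (by ring)
  simp only [smul_eq_mul, mul_zero, mul_one, zero_add, h1, add_zero] at this
  nlinarith [ht.1]

variable {E : Type} [NormedAddCommGroup E] [InnerProductSpace ℝ E]

/-- The data of a boost with a source term. -/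
structure Bo (k : ℝ) (p : ℝ → ℝ) (x b F : ℝ → E) (w : ℝ → E →L[ℝ] E) : Prop where
  skew : ∀ t u v, ⟪w t u, v⟫ = -⟪u, w t v⟫
  d0 : ∀ t, HasDerivAt p (-(k * ⟪b t, x t⟫)) t
  d1 : ∀ t, HasDerivAt x (-w t (x t) - (k * p t) • b t + F t) t

variable {k : ℝ} {p : ℝ → ℝ} {x b F : ℝ → E} {w : ℝ → E →L[ℝ] E}

theorem Bo.dx (h : Bo k p x b F w) (t : ℝ) : HasDerivAt (fun s => ‖x s‖ ^ 2)
    (2 * ⟪x t, F t⟫ - 2 * (k * p t * ⟪b t, x t⟫)) t := by
  have h1 := (h.d1 t).norm_sq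
  refine h1.congr_deriv ?_
  have h2 : ⟪x t, w t (x t)⟫ = 0 := by
    have := h.skew t (x t) (x t)
    rw [real_inner_comm] at this
    linarith
  simp only [inner_add_right, inner_sub_right, inner_neg_right, inner_smul_right, h2]
  rw [real_inner_comm (x t) (b t)]
  ring

theorem Bo.dp (h : Bo k p x b F w) (t : ℝ) :
    HasDerivAt (fun s => p s ^ 2) (-(2 * (k * p t * ⟪b t, x t⟫))) t := by
  refine ((h.d0 t).pow 2).congr_deriv ?_
  simp only [Nat.cast_ofNat, Nat.add_one_sub_one, pow_one]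
  ring

/-- The Euclidean norm grows at most exponentially. -/
theorem Bo.euc (h : Bo k p x b F w) {r φ : ℝ} (hb : ∀ t, |k| * ‖b t‖ ≤ r)
    (hF : ∀ t ∈ Icc (0 : ℝ) 1, ‖F t‖ ≤ φ) {t : ℝ} (ht : t ∈ Icc (0 : ℝ) 1) :
    p t ^ 2 + ‖x t‖ ^ 2 ≤ Real.exp (2 * r + 1) * (p 0 ^ 2 + ‖x 0‖ ^ 2 + φ ^ 2) := by
  have hr : 0 ≤ r := (mul_nonneg (abs_nonneg k) (norm_nonneg _)).trans (hb 0)
  set l := 2 * r + 1 with hl
  have he : ∀ s, HasDerivAt (fun s => Real.exp (-(l * s))) (Real.exp (-(l * s)) * -l) s :=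
    fun s => by simpa using ((hasDerivAt_id s).const_mul l).neg.exp
  have hd := fun s => ((h.dp s).add (h.dx s)).mul (he s)
  have h1 := le_of_der (c := φ ^ 2) hd (fun s hs => ?_) ht
  · simp only [Pi.mul_apply, Pi.add_apply, mul_zero, neg_zero, Real.exp_zero, mul_one] at h1
    have h2 : Real.exp (-(l * t)) * Real.exp (l * t) = 1 := by rw [← Real.exp_add]; simp
    have h3 : Real.exp (l * t) ≤ Real.exp l :=
      Real.exp_le_exp.mpr (by nlinarith [ht.1, ht.2])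
    have h4 : φ ^ 2 * t ≤ φ ^ 2 := by nlinarith [ht.1, ht.2, sq_nonneg φ]
    have h5 : 0 ≤ p 0 ^ 2 + ‖x 0‖ ^ 2 + φ ^ 2 := by positivity
    have h6 := mul_le_mul_of_nonneg_right (h1.trans (add_le_add_right h4 _))
      (Real.exp_pos (l * t)).le
    rw [mul_assoc, h2, mul_one] at h6
    nlinarith [mul_le_mul_of_nonneg_left h3 h5]
  · simp only [Pi.add_apply]
    have e1 : Real.exp (-(l * s)) ≤ 1 := Real.exp_le_one_iff.mpr (by nlinarith [hs.1])
    have e0 := Real.exp_pos (-(l * s))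
    have a1 : |k * ⟪b s, x s⟫| ≤ r * ‖x s‖ := by
      rw [abs_mul]
      calc |k| * |⟪b s, x s⟫| ≤ |k| * (‖b s‖ * ‖x s‖) :=
            mul_le_mul_of_nonneg_left (abs_real_inner_le_norm _ _) (abs_nonneg k)
        _ = |k| * ‖b s‖ * ‖x s‖ := by ring
        _ ≤ r * ‖x s‖ := mul_le_mul_of_nonneg_right (hb s) (norm_nonneg _)
    have a2 : -(p s * (k * ⟪b s, x s⟫)) ≤ |p s| * (r * ‖x s‖) := by
      refine (neg_le_abs _).trans ?_
      rw [abs_mul]
      exact mul_le_mul_of_nonneg_left a1 (abs_nonneg _)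
    have a3 : 2 * (|p s| * ‖x s‖) ≤ p s ^ 2 + ‖x s‖ ^ 2 := by
      nlinarith [sq_nonneg (|p s| - ‖x s‖), sq_abs (p s)]
    have a4 : ⟪x s, F s⟫ ≤ ‖x s‖ * φ :=
      (real_inner_le_norm _ _).trans (mul_le_mul_of_nonneg_left (hF s hs) (norm_nonneg _))
    have a5 : 2 * (‖x s‖ * φ) ≤ ‖x s‖ ^ 2 + φ ^ 2 := by nlinarith [sq_nonneg (‖x s‖ - φ)]
    have a6 : -(2 * (k * p s * ⟪b s, x s⟫)) + (2 * ⟪x s, F s⟫ - 2 * (k * p s * ⟪b s, x s⟫)) +
        (p s ^ 2 + ‖x s‖ ^ 2) * -l ≤ φ ^ 2 := by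
      have a7 := mul_le_mul_of_nonneg_left a3 hr
      rw [hl]
      nlinarith [sq_nonneg (p s)]
    have a8 := mul_le_mul_of_nonneg_right a6 e0.le
    nlinarith [sq_nonneg φ]

/-- The Lorentz form changes only through the source term. -/
theorem Bo.lor (h : Bo k p x b F w) {M φ : ℝ} (hx : ∀ t ∈ Icc (0 : ℝ) 1, ‖x t‖ ≤ M)
    (hF : ∀ t ∈ Icc (0 : ℝ) 1, ‖F t‖ ≤ φ) :
    |‖x 1‖ ^ 2 - p 1 ^ 2 - (‖x 0‖ ^ 2 - p 0 ^ 2)| ≤ 2 * (M * φ) := by
  have hd : ∀ s, HasDerivAt (fun s => ‖x s‖ ^ 2 - p s ^ 2) (2 * ⟪x s, F s⟫) s := fun s =>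
    ((h.dx s).sub (h.dp s)).congr_deriv (by ring)
  have hb : ∀ s ∈ Icc (0 : ℝ) 1, |⟪x s, F s⟫| ≤ M * φ := fun s hs =>
    (abs_real_inner_le_norm _ _).trans (mul_le_mul (hx s hs) (hF s hs) (norm_nonneg _)
      ((norm_nonneg _).trans (hx s hs)))
  have o : (1 : ℝ) ∈ Icc (0 : ℝ) 1 := right_mem_Icc.mpr zero_le_one
  have h1 := le_of_der (c := 2 * (M * φ)) hd
    (fun s hs => by linarith [(abs_le.mp (hb s hs)).2]) o
  have h2 := le_of_der (c := 2 * (M * φ)) (fun s => (hd s).neg)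
    (fun s hs => by linarith [(abs_le.mp (hb s hs)).1]) o
  simp only [Pi.neg_apply] at h2
  rw [abs_le]
  constructor <;> linarith

end Pool.Agent.MP_3ee8cb_gt.DNTR
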