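import Pool.Agent.MP_3ee8cb_gt.DN.Defs
import Pool.Agent.MP_3ee8cb_gt.D3JC.Ode
import Pool.Agent.MP_3ee8cb_gt.D3FR.Flow
import Pool.Agent.MP_3ee8cb_gt.DNTR.Ode

/-! Block TR: parallel transport for the Cartan connection and its variation. -/

namespace Pool.Agent.MP_3ee8cb_gt.DNTR

open DN Set
open scoped RealInnerProductSpace

variable [Dim]

noncomputable section

/-- The extended phase space. -/
abbrev Q := (V × V) × ℝ × V

/-- The coefficient of the transport equation. -/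
def co (k : ℝ) (b : V) (w : V →L[ℝ] V) : ℝ × V →L[ℝ] ℝ × V :=
  ((-k) • (innerSL ℝ b).comp (.snd ℝ ℝ V)).prod
    (-(w.comp (.snd ℝ ℝ V)) - k • (ContinuousLinearMap.fst ℝ ℝ V).smulRight b)

theorem co_ap (k : ℝ) (b : V) (w : V →L[ℝ] V) (u : ℝ × V) :
    co k b w u = (-(k * ⟪b, u.2⟫), -w u.2 - (k * u.1) • b) := by
  simp [co, mul_smul]

/-- The second component of the extended field. -/
def ex (m : MF) (k : ℝ) (q : Q) : ℝ × V :=
  (-(k * ⟪q.1.2, q.2.2⟫), -m.om q.1.1 (m.R q.1.1 q.1.2) q.2.2 - (k * q.2.1) • q.1.2)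

theorem app_der {F : Type} [NormedAddCommGroup F] [NormedSpace ℝ F] {o : V → V →L[ℝ] F}
    {D : V →L[ℝ] V →L[ℝ] F} {y u : ℝ → V} {y' u' : V} {t : ℝ} (ho : HasFDerivAt o D (y t))
    (hy : HasDerivAt y y' t) (hu : HasDerivAt u u' t) :
    HasDerivAt (fun s => o (y s) (u s)) (D y' (u t) + o (y t) u') t :=
  (ho.comp_hasDerivAt t hy).clm_apply hu

variable {m : MF} (h : m.OK) (k : ℝ)
include h

theorem cR2 : ContDiff ℝ 1 fun z : V × V => m.R z.1 z.2 :=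
  ((h.cR.of_le one_le_two).comp contDiff_fst).clm_apply contDiff_snd

theorem cvf : ContDiff ℝ 1 m.vf :=
  (cR2 h).prodMk (((h.com.comp contDiff_fst).clm_apply (cR2 h)).clm_apply contDiff_snd).neg

theorem cex : ContDiff ℝ 1 (ex m k) := by
  have c1 : ContDiff ℝ 1 fun q : Q => m.om q.1.1 (m.R q.1.1 q.1.2) q.2.2 :=
    ((h.com.comp contDiff_fst.fst).clm_apply ((cR2 h).comp contDiff_fst)).clm_apply
      contDiff_snd.snd
  have c2 : ContDiff ℝ 1 fun q : Q => ⟪q.1.2, q.2.2⟫ := contDiff_fst.snd.inner ℝ contDiff_snd.snd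
  have c3 : ContDiff ℝ 1 fun q : Q => (k * q.2.1) • q.1.2 :=
    (contDiff_const.mul contDiff_snd.fst).smul contDiff_fst.snd
  exact (contDiff_const.mul c2).neg.prodMk (c1.neg.sub c3)

theorem cZz (z : V × V) : Continuous fun t => m.Z t z :=
  continuous_iff_continuousAt.2 fun t => (h.ode z t).continuousAt

theorem ode1 (z : V × V) (t : ℝ) :
    HasDerivAt (fun s => (m.Z s z).1) (m.R (m.Z t z).1 (m.Z t z).2) t :=
  (ContinuousLinearMap.fst ℝ V V).hasFDerivAt.comp_hasDerivAt t (h.ode z t)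

/-- The transport: linear, and jointly of class `C¹`. -/
structure Tp (m : MF) (k : ℝ) (P : ℝ → V × V → ℝ × V →L[ℝ] ℝ × V) : Prop where
  zero : ∀ z u, P 0 z u = u
  ode : ∀ z u t, HasDerivAt (fun s => P s z u) (ex m k (m.Z t z, P t z u)) t
  c1 : ContDiff ℝ 1 fun p : ℝ × Q => P p.1 p.2.1 p.2.2

theorem exists_tp : ∃ P, Tp m k P := by
  have hc : ∀ z, Continuous fun t => co k (m.Z t z).2 (m.w z t) := fun z => by
    have c1 := h.com.continuous
    have c2 := h.cR.continuous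
    have c3 := cZz h z
    refine continuous_clm_apply.2 fun u => ?_
    simp only [co_ap, MF.w]
    fun_prop
  have he : ∀ z : V × V, ∃ Y : ℝ → ℝ × V →L[ℝ] ℝ × V, Y 0 = .id ℝ _ ∧ ∀ t, HasDerivAt Y
      (ContinuousLinearMap.compL ℝ _ _ _ (co k (m.Z t z).2 (m.w z t)) (Y t)) t := fun z =>
    D3JC.lin_line (A := fun t => ContinuousLinearMap.compL ℝ (ℝ × V) (ℝ × V) (ℝ × V)
      (co k (m.Z t z).2 (m.w z t)))
      ((ContinuousLinearMap.compL ℝ (ℝ × V) (ℝ × V) (ℝ × V)).continuous.comp (hc z)) _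
  choose Y h0 hY using he
  have d : ∀ z u t, HasDerivAt (fun s => Y z s u) (ex m k (m.Z t z, Y z t u)) t := fun z u t => by
    refine ((hY z t).clm_apply (hasDerivAt_const t u)).congr_deriv ?_
    simp only [map_zero, add_zero, ContinuousLinearMap.compL_apply,
      ContinuousLinearMap.comp_apply, co_ap]
    rfl
  refine ⟨fun t z => Y z t, fun z u => by simp [h0], d, ?_⟩
  have hv : ContDiff ℝ 1 fun q : Q => (m.vf q.1, ex m k q) :=
    ((cvf h).comp contDiff_fst).prodMk (cex h k)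
  have := D3.FR.flow_c1 hv (g := fun t q => (m.Z t q.1, Y q.1 t q.2))
    (fun q => by simp [h.zero, h0]) (fun q t => (h.ode q.1 t).prodMk (d q.1 q.2 t))
  exact this.snd

theorem dex (q ζ : Q) : fderiv ℝ (ex m k) q ζ =
    (-(k * (⟪q.1.2, ζ.2.2⟫ + ⟪ζ.1.2, q.2.2⟫)),
      -(fderiv ℝ m.om q.1.1 ζ.1.1 (m.R q.1.1 q.1.2) q.2.2 +
        m.om q.1.1 (fderiv ℝ m.R q.1.1 ζ.1.1 q.1.2 + m.R q.1.1 ζ.1.2) q.2.2 +
        m.om q.1.1 (m.R q.1.1 q.1.2) ζ.2.2) - ((k * q.2.1) • ζ.1.2 + (k * ζ.2.1) • q.1.2)) := by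
  have dR := (h.cR.differentiable two_ne_zero q.1.1).hasFDerivAt
  have dO := (h.com.differentiable one_ne_zero q.1.1).hasFDerivAt
  have f1 : HasFDerivAt (fun q : Q => q.1) (.fst ℝ (V × V) (ℝ × V)) q := hasFDerivAt_fst
  have f2 : HasFDerivAt (fun q : Q => q.2) (.snd ℝ (V × V) (ℝ × V)) q := hasFDerivAt_snd
  have f11 := f1.fst
  have f12 := f1.snd
  have f21 := f2.fst
  have f22 := f2.snd
  have a := (dR.comp q f11).clm_apply f12
  have b := ((dO.comp q f11).clm_apply a).clm_apply f22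
  have c : HasFDerivAt (ex m k) _ q :=
    ((f12.inner ℝ f22).const_mul k).fun_neg.prodMk
      (b.fun_neg.fun_sub ((f21.const_mul k).fun_smul f12))
  rw [c.fderiv]
  simp
  abel

theorem dvf1 (z ξ : V × V) :
    (fderiv ℝ m.vf z ξ).1 = fderiv ℝ m.R z.1 ξ.1 z.2 + m.R z.1 ξ.2 := by
  have dR := (h.cR.differentiable two_ne_zero z.1).hasFDerivAt
  have a := (dR.comp z hasFDerivAt_fst).clm_apply hasFDerivAt_snd
  have b := ((cvf h).differentiable one_ne_zero z).hasFDerivAt.fst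
  have := congrArg (fun L : V × V →L[ℝ] V => L ξ) (b.unique a)
  simpa [add_comm] using this

theorem dZ (t : ℝ) (z : V × V) : HasFDerivAt (m.Z t) (fderiv ℝ (m.Z t) z) z :=
  ((h.cZ.comp (f := fun z : V × V => (t, z)) (contDiff_const.prodMk contDiff_id)).differentiable
    one_ne_zero z).hasFDerivAt

theorem var1 (z ξ : V × V) (t : ℝ) : HasDerivAt (fun s => (fderiv ℝ (m.Z s) z ξ).1)
    (fderiv ℝ m.R (m.Z t z).1 (fderiv ℝ (m.Z t) z ξ).1 (m.Z t z).2 +
      m.R (m.Z t z).1 (fderiv ℝ (m.Z t) z ξ).2) t := by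
  have h1 := D3JC.var (F := fun q : ℝ × V × V => m.Z q.1 q.2)
    (G := fun q : ℝ × V × V => m.vf (m.Z q.1 q.2)) h.cZ ((cvf h).comp h.cZ) h.ode z t
  have h2 := (((cvf h).differentiable one_ne_zero (m.Z t z)).hasFDerivAt.comp z (dZ h t z)).fderiv
  have h3 := (ContinuousLinearMap.fst ℝ V V).hasFDerivAt.comp_hasDerivAt t
    (h1.clm_apply (hasDerivAt_const t ξ))
  refine h3.congr_deriv ?_
  rw [map_zero, add_zero, ← dvf1 h]
  exact congrArg (fun L : V × V →L[ℝ] V × V => (L ξ).1) h2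

variable {k} {P : ℝ → V × V → ℝ × V →L[ℝ] ℝ × V} (hP : Tp m k P)
include hP

omit h in
theorem dP (t : ℝ) (q : Q) :
    HasFDerivAt (fun q : Q => P t q.1 q.2) (fderiv ℝ (fun q : Q => P t q.1 q.2) q) q :=
  ((hP.c1.comp (f := fun q : Q => (t, q)) (contDiff_const.prodMk contDiff_id)).differentiable
    one_ne_zero q).hasFDerivAt

theorem varP (q ζ : Q) (t : ℝ) : HasDerivAt (fun s => fderiv ℝ (fun q : Q => P s q.1 q.2) q ζ)
    (fderiv ℝ (ex m k) (m.Z t q.1, P t q.1 q.2)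
      (fderiv ℝ (m.Z t) q.1 ζ.1, fderiv ℝ (fun q : Q => P t q.1 q.2) q ζ)) t := by
  have cZ : ContDiff ℝ 1 fun p : ℝ × Q => m.Z p.1 p.2.1 :=
    h.cZ.comp (f := fun p : ℝ × Q => (p.1, p.2.1)) (contDiff_fst.prodMk contDiff_snd.fst)
  have h1 := D3JC.var (F := fun p : ℝ × Q => P p.1 p.2.1 p.2.2)
    (G := fun p : ℝ × Q => ex m k (m.Z p.1 p.2.1, P p.1 p.2.1 p.2.2)) hP.c1
    ((cex h k).comp (cZ.prodMk hP.c1)) (fun q t => hP.ode q.1 q.2 t) q t
  have h2 := (((cex h k).differentiable one_ne_zero (m.Z t q.1, P t q.1 q.2)).hasFDerivAt.comp q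
    (((dZ h t q.1).comp q hasFDerivAt_fst).prodMk (dP hP t q))).fderiv
  refine (h1.clm_apply (hasDerivAt_const t ζ)).congr_deriv ?_
  rw [map_zero, add_zero]
  exact congrArg (fun L : Q →L[ℝ] ℝ × V => L ζ) h2

omit h in
theorem ode_s (z : V × V) (u : ℝ × V) (t : ℝ) :
    HasDerivAt (fun s => (P s z u).1) (-(k * ⟪(m.Z t z).2, (P t z u).2⟫)) t :=
  (ContinuousLinearMap.fst ℝ ℝ V).hasFDerivAt.comp_hasDerivAt t (hP.ode z u t)

omit h in
theorem ode_x (z : V × V) (u : ℝ × V) (t : ℝ) : HasDerivAt (fun s => (P s z u).2)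
    (-m.w z t (P t z u).2 - (k * (P t z u).1) • (m.Z t z).2) t :=
  (ContinuousLinearMap.snd ℝ ℝ V).hasFDerivAt.comp_hasDerivAt t (hP.ode z u t)

/-- The transported pair is a boost without source. -/
theorem bo0 (z : V × V) (u : ℝ × V) : Bo k (fun s => (P s z u).1) (fun s => (P s z u).2)
    (fun s => (m.Z s z).2) (fun _ => 0) (m.w z) :=
  ⟨fun _ _ _ => h.skew _ _ _ _, ode_s hP z u, fun t => by simpa using ode_x hP z u t⟩

/-- The first component of the covariant variation. -/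
def ps0 (m : MF) (k : ℝ) (P : ℝ → V × V → ℝ × V →L[ℝ] ℝ × V) (q ζ : Q) (s : ℝ) : ℝ :=
  (fderiv ℝ (fun q : Q => P s q.1 q.2) q ζ).1 + k * ⟪m.J q.1 ζ.1 s, (P s q.1 q.2).2⟫

/-- The second component of the covariant variation. -/
def ps1 (m : MF) (k : ℝ) (P : ℝ → V × V → ℝ × V →L[ℝ] ℝ × V) (q ζ : Q) (s : ℝ) : V :=
  (fderiv ℝ (fun q : Q => P s q.1 q.2) q ζ).2 +
    m.om (m.Z s q.1).1 (fderiv ℝ (m.Z s) q.1 ζ.1).1 (P s q.1 q.2).2 +
    (k * (P s q.1 q.2).1) • m.J q.1 ζ.1 s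

/-- The curvature of the Cartan connection. -/
def kt (m : MF) (k : ℝ) (y a b c : V) : V :=
  m.K y a b c + k ^ 2 • (⟪b, c⟫ • a - ⟪a, c⟫ • b)

/-- The covariant variation is a boost whose source is the curvature. -/
theorem bo1 (hj : m.Jac) (q ζ : Q) : Bo k (ps0 m k P q ζ) (ps1 m k P q ζ) (fun s => (m.Z s q.1).2)
    (fun s => kt m k (m.Z s q.1).1 (m.Z s q.1).2 (m.J q.1 ζ.1 s) (P s q.1 q.2).2) (m.w q.1) := by
  refine ⟨fun _ _ _ => h.skew _ _ _ _, fun t => ?_, fun t => ?_⟩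
  · have a := (ContinuousLinearMap.fst ℝ ℝ V).hasFDerivAt.comp_hasDerivAt t (varP h hP q ζ t)
    have b := ((hj.d1 q.1 ζ.1 t).inner ℝ (ode_x hP q.1 q.2 t)).const_mul k
    refine (a.add b).congr_deriv ?_
    have e : m.J' q.1 ζ.1 t = (fderiv ℝ (m.Z t) q.1 ζ.1).2 +
        m.om (m.Z t q.1).1 (fderiv ℝ (m.Z t) q.1 ζ.1).1 (m.Z t q.1).2 := rfl
    simp only [ContinuousLinearMap.coe_fst', dex h, ps1, e, MF.w, inner_add_left, inner_add_right,
      inner_sub_left, inner_sub_right, inner_neg_right, inner_smul_right, h.skew,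
      real_inner_comm (m.J q.1 ζ.1 t) (m.Z t q.1).2]
    ring
  · have a := (ContinuousLinearMap.snd ℝ ℝ V).hasFDerivAt.comp_hasDerivAt t (varP h hP q ζ t)
    have dO := (h.com.differentiable one_ne_zero (m.Z t q.1).1).hasFDerivAt
    have b1 := app_der (F := V →L[ℝ] V) dO (ode1 h q.1 t) (var1 h q.1 ζ.1 t)
    have b := b1.clm_apply (ode_x hP q.1 q.2 t)
    have c := ((ode_s hP q.1 q.2 t).const_mul k).smul (hj.d1 q.1 ζ.1 t)
    refine ((a.add b).add c).congr_deriv ?_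
    have e : m.J' q.1 ζ.1 t = (fderiv ℝ (m.Z t) q.1 ζ.1).2 +
        m.om (m.Z t q.1).1 (fderiv ℝ (m.Z t) q.1 ζ.1).1 (m.Z t q.1).2 := rfl
    have e2 : m.R (m.Z t q.1).1 (m.J q.1 ζ.1 t) = (fderiv ℝ (m.Z t) q.1 ζ.1).1 := h.RS _ _
    simp only [ContinuousLinearMap.coe_snd', dex h, ps0, ps1, kt, e, MF.w, MF.K, MF.Om, e2,
      map_add, map_sub, map_neg, map_smul, ContinuousLinearMap.add_apply]
    module

end

end Pool.Agent.MP_3ee8cb_gt.DNTR
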