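import Pool.Agent.MP_3ee8cb_gt.DN.Spec2
import Pool.Agent.MP_3ee8cb_gt.DNTR.Flow

/-! Block TR: the front transplanted to de Sitter space. -/

namespace Pool.Agent.MP_3ee8cb_gt.DNTR

open DN Set
open scoped RealInnerProductSpace

variable [Dim]

noncomputable section

variable {m : MF}

/-- A Jacobi field that vanishes at time one is bounded by its initial value. -/
theorem jac_le (h : m.OK) (hj : m.Jac) (hu : m.Up 0) (z η : V × V) (h1 : m.J z η 1 = 0) {t : ℝ}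
    (ht : t ∈ Icc (0 : ℝ) 1) : ‖m.J z η t‖ ≤ ‖m.J z η 0‖ := by
  have sk : ∀ s u v, ⟪m.w z s u, v⟫ = -⟪u, m.w z s v⟫ := fun _ _ _ => h.skew _ _ _ _
  have d1 : ∀ s, HasDerivAt (fun s => ⟪m.J z η s, m.J z η s⟫)
      (2 * ⟪m.J z η s, m.J' z η s⟫) s := fun s => by
    refine ((hj.d1 z η s).inner ℝ (hj.d1 z η s)).congr_deriv ?_
    simp only [inner_sub_left, inner_sub_right, sk, real_inner_comm (m.J z η s) (m.J' z η s)]
    ring
  have d2 : ∀ s, HasDerivAt (fun s => 2 * ⟪m.J z η s, m.J' z η s⟫)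
      (2 * (⟪m.J' z η s, m.J' z η s⟫ -
        ⟪m.K (m.Z s z).1 (m.J z η s) (m.Z s z).2 (m.Z s z).2, m.J z η s⟫)) s := fun s => by
    refine (((hj.d1 z η s).inner ℝ (hj.d2 z η s)).const_mul 2).congr_deriv ?_
    simp only [inner_sub_left, inner_sub_right, inner_neg_right, sk,
      real_inner_comm (m.K (m.Z s z).1 (m.J z η s) (m.Z s z).2 (m.Z s z).2) (m.J z η s)]
    ring
  have := cvx_le d1 d2 (fun s => by
    have a1 := hu (m.Z s z).1 (m.J z η s) (m.Z s z).2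
    have a2 : 0 ≤ ⟪m.J' z η s, m.J' z η s⟫ := real_inner_self_nonneg
    linarith) real_inner_self_nonneg (by simp [h1]) ht
  rw [real_inner_self_eq_norm_sq, real_inner_self_eq_norm_sq] at this
  exact (sq_le_sq₀ (norm_nonneg _) (norm_nonneg _)).mp this

theorem lor0 {k : ℝ} {p : ℝ → ℝ} {x b : ℝ → V} {w : ℝ → V →L[ℝ] V}
    (h : Bo k p x b (fun _ => 0) w) : ‖x 1‖ ^ 2 - p 1 ^ 2 = ‖x 0‖ ^ 2 - p 0 ^ 2 := by
  have hd : ∀ s, HasDerivAt (fun s => ‖x s‖ ^ 2 - p s ^ 2) 0 s := fun s =>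
    ((h.dx s).sub (h.dp s)).congr_deriv (by simp)
  exact is_const_of_deriv_eq_zero (fun t => (hd t).differentiableAt) (fun t => (hd t).deriv) 1 0

omit [Dim] in
theorem le_of_sq {p x c : ℝ} (hc : 0 ≤ c) (h : p ^ 2 + x ^ 2 ≤ c ^ 2) : x ≤ c :=
  (abs_le_of_sq_le_sq' (by nlinarith [sq_nonneg p]) hc).2

/-- The starting point in the extended phase space. -/
def st (lg : V × V → V) (σ : V → V × V) (o v : V) : Q :=
  (((σ v).1, lg ((σ v).1, o)), 0, (σ v).2)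

variable {lg : V × V → V} {σ : V → V × V}

theorem isOpen_ne0 : IsOpen {a : V | a ≠ 0} := isOpen_ne

theorem st_c1 (hl : m.Had lg) (hf : m.Front σ) (o : V) : ContDiffOn ℝ 1 (st lg σ o) {a | a ≠ 0} :=
  (hf.c1.fst.prodMk (hl.c1.comp_contDiffOn (hf.c1.fst.prodMk contDiffOn_const))).prodMk
    (contDiffOn_const.prodMk hf.c1.snd)

theorem st_der (hl : m.Had lg) (hf : m.Front σ) (o : V) {v : V} (hv : v ≠ 0) :
    ∃ D : V →L[ℝ] Q, HasFDerivAt (st lg σ o) D v ∧ ∀ e, (D e).1.1 = (fderiv ℝ σ v e).1 ∧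
      (D e).2 = (0, (fderiv ℝ σ v e).2) := by
  have d := ((hf.c1.contDiffAt (isOpen_ne0.mem_nhds hv)).differentiableAt one_ne_zero).hasFDerivAt
  have d2 := (hl.c1.differentiable one_ne_zero ((σ v).1, o)).hasFDerivAt.comp v
    (d.fst.prodMk (hasFDerivAt_const o v))
  exact ⟨_, (d.fst.prodMk d2).prodMk ((hasFDerivAt_const (0 : ℝ) v).prodMk d.snd),
    fun e => ⟨rfl, rfl⟩⟩

variable {k : ℝ} {P : ℝ → V × V → ℝ × V →L[ℝ] ℝ × V}

/-- The transported normal. -/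
def ph (P : ℝ → V × V → ℝ × V →L[ℝ] ℝ × V) (lg : V × V → V) (σ : V → V × V) (o v : V) : ℝ × V :=
  P 1 (st lg σ o v).1 (st lg σ o v).2

theorem ph_ds (h : m.OK) (hP : Tp m k P) (hl : m.Had lg) (hf : m.Front σ) (o : V) :
    DS (fun v => (ph P lg σ o v).1) fun v => (ph P lg σ o v).2 := by
  have c : ContDiffOn ℝ 1 (ph P lg σ o) {a | a ≠ 0} :=
    (hP.c1.comp (f := fun q : Q => (1, q)) (contDiff_const.prodMk contDiff_id)).comp_contDiffOn
      (st_c1 hl hf o)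
  have e : ∀ (r : ℝ) a, r ≠ 0 → a ≠ 0 → ph P lg σ o (r • a) = r • ph P lg σ o a :=
    fun r a hr ha => by
      simp only [ph, st, hf.hom r a hr ha]
      rw [← map_smul]
      simp
  refine ⟨⟨c.fst, fun r a hr ha => by rw [e r a hr ha]; rfl⟩,
    ⟨c.snd, fun r a hr ha => by rw [e r a hr ha]; rfl⟩, fun a ha => ?_⟩
  have := lor0 (bo0 h hP (st lg σ o a).1 (st lg σ o a).2)
  simp only [hP.zero] at this
  simpa [ph, st, hf.norm a ha] using this

theorem ends (h : m.OK) (hP : Tp m k P) (hl : m.Had lg) (hf : m.Front σ) (o : V) {v : V}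
    (hv : v ≠ 0) (e : V) : ∃ ζ : Q, m.J (st lg σ o v).1 ζ.1 0 = m.A σ v e ∧
      m.J (st lg σ o v).1 ζ.1 1 = 0 ∧ ps0 m k P (st lg σ o v) ζ 0 = 0 ∧
      ps1 m k P (st lg σ o v) ζ 0 = m.A' σ v e ∧
      ps0 m k P (st lg σ o v) ζ 1 = fderiv ℝ (fun v => (ph P lg σ o v).1) v e ∧
      ps1 m k P (st lg σ o v) ζ 1 = fderiv ℝ (fun v => (ph P lg σ o v).2) v e := by
  obtain ⟨D, hD, hv'⟩ := st_der hl hf o hv
  have z0 : m.Z 0 = id := funext h.zero
  have j0 : m.J (st lg σ o v).1 (D e).1 0 = m.A σ v e := by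
    simp only [MF.J, z0, fderiv_id, id, ContinuousLinearMap.id_apply]
    change m.S (σ v).1 (D e).1.1 = m.S (σ v).1 (fderiv ℝ σ v e).1
    rw [(hv' e).1]
  have f1 : (fderiv ℝ (m.Z 1) (st lg σ o v).1 (D e).1).1 = 0 := by
    have a := ((dZ h 1 (st lg σ o v).1).comp v hD.fst).fst
    have b : (fun x => ((m.Z 1 ∘ fun x => (st lg σ o x).1) x).1) = fun _ => o :=
      funext fun x => hl.ex _ _
    rw [b] at a
    exact congrArg (fun L : V →L[ℝ] V => L e) (a.unique (hasFDerivAt_const o v))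
  have j1 : m.J (st lg σ o v).1 (D e).1 1 = 0 := by
    change m.S _ (fderiv ℝ (m.Z 1) (st lg σ o v).1 (D e).1).1 = 0
    rw [f1, map_zero]
  have c := (dP hP 1 (st lg σ o v)).comp v hD
  refine ⟨D e, j0, j1, ?_, ?_, ?_, ?_⟩
  · have := hf.leg v e hv
    rw [real_inner_comm] at this
    simp only [ps0, j0, hP.zero, fderiv_snd, ContinuousLinearMap.coe_snd', (hv' e).2]
    change 0 + k * ⟪m.hor (σ v) (fderiv ℝ σ v e), (σ v).2⟫ = 0
    rw [this]
    simp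
  · simp only [ps1, z0, hP.zero, fderiv_snd, ContinuousLinearMap.coe_snd', (hv' e).2,
      fderiv_id, id, ContinuousLinearMap.id_apply, (hv' e).1]
    change _ + _ + (k * 0) • _ = _
    rw [mul_zero, zero_smul, add_zero]
    rfl
  · simp only [ps0, j1, inner_zero_left, mul_zero, add_zero]
    exact (congrArg (fun L : V →L[ℝ] ℝ => L e) c.fst.fderiv).symm
  · simp only [ps1, j1, f1, map_zero, smul_zero, add_zero, ContinuousLinearMap.zero_apply]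
    exact (congrArg (fun L : V →L[ℝ] V => L e) c.snd.fderiv).symm

end

end Pool.Agent.MP_3ee8cb_gt.DNTR

namespace Pool.Agent.MP_3ee8cb_gt.DN

open DNTR Set
open scoped RealInnerProductSpace

variable [Dim]

theorem tr_of (hpol : SPOL) : STR := by
  obtain ⟨G, hG⟩ : ∃ G, G = Real.exp 2 := ⟨_, rfl⟩
  have G0 : 0 < G := hG ▸ Real.exp_pos 2
  have G2 : Real.exp (2 * (3 / 2) + 1) = G ^ 2 := by
    rw [hG, ← Real.exp_nat_mul]
    norm_num
  refine ⟨4 * G * (G * (1 + 3 * G)), G * (1 + 3 * G), by positivity, by positivity, ?_⟩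
  intro δ δ0 δ1 m lg σ a h hj hl hf a0 u0 ua dn o ho
  obtain ⟨P, hP⟩ := exists_tp h a
  refine ⟨_, _, ph_ds h hP hl hf o, fun v hv => ?_⟩
  have v0 : v ≠ 0 := by
    rintro rfl
    simp at hv
  obtain ⟨r, hr⟩ : ∃ r, r = a * ‖lg ((σ v).1, o)‖ := ⟨_, rfl⟩
  have r0 : 0 ≤ r := hr ▸ mul_nonneg a0.le (norm_nonneg _)
  have r1 : r ≤ 3 / 2 := hr ▸ ho v hv
  have hb' : ∀ t, a * ‖(m.Z t (st lg σ o v).1).2‖ = r := fun t => by
    rw [hj.norm, hr]
    rfl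
  have hb : ∀ t, |a| * ‖(m.Z t (st lg σ o v).1).2‖ ≤ 3 / 2 := fun t => by
    rw [abs_of_pos a0, hb']
    exact r1
  have hX : ∀ t ∈ Icc (0 : ℝ) 1, ‖(P t (st lg σ o v).1 (st lg σ o v).2).2‖ ≤ G := fun t ht => by
    have := (bo0 h hP (st lg σ o v).1 (st lg σ o v).2).euc (φ := 0) hb (fun _ _ => by simp) ht
    simp only [hP.zero, G2] at this
    refine le_of_sq G0.le (this.trans (le_of_eq ?_))
    simp [st, hf.norm v v0, hv]
  have o1 : (1 : ℝ) ∈ Icc (0 : ℝ) 1 := right_mem_Icc.mpr zero_le_one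
  refine ⟨(hX 1 o1).trans (by nlinarith), fun e β β0 β1 hβ => ?_⟩
  obtain ⟨ζ, j0, j1, e0, e1, e2, e3⟩ := ends h hP hl hf o v0 e
  rw [← e2, ← e3, ← hr]
  obtain ⟨α, hα⟩ : ∃ α, α = ‖m.A' σ v e‖ := ⟨_, rfl⟩
  have α0 : 0 ≤ α := hα ▸ norm_nonneg _
  rw [← hα] at hβ ⊢
  have B := bo1 h hP hj (st lg σ o v) ζ
  have hF : ∀ t ∈ Icc (0 : ℝ) 1, ‖kt m a (m.Z t (st lg σ o v).1).1 (m.Z t (st lg σ o v).1).2
      (m.J (st lg σ o v).1 ζ.1 t) (P t (st lg σ o v).1 (st lg σ o v).2).2‖ ≤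
        2 * δ * r * (β * α) * G := fun t ht => by
    refine (hpol m (a ^ 2) ((1 + δ) * a ^ 2) h hj ua dn _ _ _ _).trans ?_
    have c1 := jac_le h hj u0 _ _ j1 ht
    rw [j0] at c1
    have c2 : a * ‖m.J (st lg σ o v).1 ζ.1 t‖ ≤ β * α :=
      (mul_le_mul_of_nonneg_left c1 a0.le).trans hβ
    have c3 : 2 * ((1 + δ) * a ^ 2 - a ^ 2) * ‖(m.Z t (st lg σ o v).1).2‖ *
        ‖m.J (st lg σ o v).1 ζ.1 t‖ = 2 * δ * r * (a * ‖m.J (st lg σ o v).1 ζ.1 t‖) := by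
      rw [← hb' t]
      ring
    rw [c3]
    exact mul_le_mul (mul_le_mul_of_nonneg_left c2 (by positivity)) (hX t ht) (norm_nonneg _)
      (by positivity)
  have hφ : 2 * δ * r * (β * α) * G ≤ 3 * G * α := by
    have c1 : δ * r ≤ 3 / 2 := by nlinarith
    have c2 : δ * r * β ≤ 3 / 2 := by nlinarith [mul_nonneg δ0 r0]
    nlinarith [mul_nonneg G0.le α0]
  have φ0 : 0 ≤ 2 * δ * r * (β * α) * G := by positivity
  have hM : ∀ t ∈ Icc (0 : ℝ) 1, ‖ps1 m a P (st lg σ o v) ζ t‖ ≤ G * (1 + 3 * G) * α :=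
    fun t ht => by
      have := B.euc hb hF ht
      rw [G2, e0, e1, ← hα] at this
      refine le_of_sq (by positivity) (this.trans ?_)
      have c1 : (2 * δ * r * (β * α) * G) ^ 2 ≤ (3 * G * α) ^ 2 := pow_le_pow_left₀ φ0 hφ 2
      have c2 : 0 ^ 2 + α ^ 2 + (2 * δ * r * (β * α) * G) ^ 2 ≤ ((1 + 3 * G) * α) ^ 2 := by
        nlinarith [mul_nonneg G0.le (sq_nonneg α)]
      calc _ ≤ G ^ 2 * ((1 + 3 * G) * α) ^ 2 := mul_le_mul_of_nonneg_left c2 (sq_nonneg G)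
        _ = _ := by ring
  refine ⟨hM 1 o1, ?_⟩
  have := (abs_le.mp (B.lor hM hF)).1
  rw [e0, e1, ← hα] at this
  nlinarith

end Pool.Agent.MP_3ee8cb_gt.DN
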